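import Pool.Agent.W465.PdC

/-!
# Projective dimension along finitely generated FI-modules in characteristic `p`

For every field `K` of characteristic `p > 0` and every `c ≥ 1` there is a finitely generated
FI-module `M` over `P = (X^{FI,1})^{⊗ c}` with `pd M_n = c n` if `p ∣ n + 1` and
`pd M_n = c n - 1` otherwise (`n ≥ 1`).

The module (the one of `MP_9ec07c_ag`, where its regularity is computed) has generators `ν_i` and
`e_j`, `i, j ∈ [n]`, and relations `x_{1,k} e_j = 0` for `k ≠ j`,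
`x_{1,j} ν_i = (1 + δ_{ij}) e_j`, all other variables acting by zero.  The matrix
`(1 + δ_{ij})` has determinant `n + 1`.
-/

open MvPolynomial H379R3 Pool.Agent.W465

universe u

namespace Pool.Agent.Results.MP_a29b63_ag.FIPositiveChar

theorem result (K : Type u) [Field K] (p : ℕ) (hp : p.Prime) [CharP K p] (c : ℕ) (hc : 1 ≤ c) :
    ∃ M : OIPd.FIModule K c, M.FinGen ∧
      (∀ n : ℕ, 1 ≤ n →
        M.pd n = ((if ¬ p ∣ n + 1 then c * n - 1 else c * n : ℕ) : WithBot ℕ∞)) ∧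
      ¬ OIPd.EventuallyLinear M.pd := by
  let i0 : Fin c := ⟨0, hc⟩
  have hcast : ∀ n : ℕ, ((n : K) + 1 = 0 ↔ p ∣ n + 1) := by
    intro n
    rw [← CharP.cast_eq_zero_iff K p (n + 1)]
    push_cast; rfl
  have h1 : ∀ n : ℕ, 1 ≤ n →
      (OIPd.ofGradedFI (GMod.fiMod i0 (GMod.symm K) GMod.symm_compat)).pd n =
        ((if ¬ p ∣ n + 1 then c * n - 1 else c * n : ℕ) : WithBot ℕ∞) := by
    intro n hn
    have hpos : 1 ≤ c * n := Nat.mul_pos hc hn
    split_ifs with h
    · obtain ⟨h2, h3⟩ := PD.MM_sing i0 (GMod.symm K n)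
        (PD.not_inj (GMod.symm_not_surj ((hcast n).mpr h) hn))
      exact OIPd.pd_eq h2 h3
    · obtain ⟨h2, h3⟩ := PD.MM_bij i0 (GMod.symm K n) hn
        (GMod.symm_bij (fun h2 => h ((hcast n).mp h2)))
      exact OIPd.pd_eq (by rw [Nat.sub_add_cancel hpos]; exact h2) h3
  refine ⟨OIPd.ofGradedFI (GMod.fiMod i0 (GMod.symm K) GMod.symm_compat),
    OIPd.finGen_ofGradedFI _ (GMod.fiMod_finGen _ _ _), h1, ?_⟩
  refine OIPd.not_linear hc _ (fun n => ¬ p ∣ n + 1) h1 ?_ ?_
  · intro N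
    refine ⟨p * (N + 1), ?_, ?_⟩
    · have := Nat.le_mul_of_pos_left (N + 1) hp.pos
      omega
    · intro h
      have h2 : p ∣ 1 := (Nat.dvd_add_right (Dvd.intro _ rfl)).mp h
      exact hp.one_lt.ne' (Nat.dvd_one.mp h2)
  · intro N
    have h2 := Nat.le_mul_of_pos_left (N + 1) hp.pos
    refine ⟨p * (N + 1) - 1, by omega, ?_⟩
    rw [not_not]
    have h3 : p * (N + 1) - 1 + 1 = p * (N + 1) := by omega
    rw [h3]
    exact Dvd.intro _ rfl

end Pool.Agent.Results.MP_a29b63_ag.FIPositiveChar
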