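import Pool.Agent.W465.PdC

/-!
# Projective dimension along finitely generated OI-modules is not eventually linear

For every field `K` and every `c ≥ 1` there is a finitely generated OI-module `M` over
`P = (X^{OI,1})^{⊗ c}` with `pd M_n = c n - 1` for even `n` and `pd M_n = c n` for odd `n`
(`n ≥ 1`).

The module (the one of `MP_9ec07c_ag`, where its regularity is computed) has generators `ν_i` and
`e_j`, `i, j ∈ [n]`, and relations `x_{1,k} e_j = 0` for `k ≠ j`,
`x_{1,j} ν_i = sgn(j - i) e_j`, all other variables acting by zero.  The matrix `(sgn(j - i))` is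
invertible exactly for even `n`.  For even `n` the module is `⨁_j K[x_{1,j}]`; for odd `n` the
residue field is a direct summand.
-/

open MvPolynomial H379R3 Pool.Agent.W465

universe u

namespace Pool.Agent.Results.MP_a29b63_ag.OINotEventuallyLinear

theorem result (K : Type u) [Field K] (c : ℕ) (hc : 1 ≤ c) :
    ∃ M : OIPd.OIModule K c, M.FinGen ∧
      (∀ n : ℕ, 1 ≤ n → M.pd n = ((if Even n then c * n - 1 else c * n : ℕ) : WithBot ℕ∞)) ∧
      ¬ OIPd.EventuallyLinear M.pd := by
  let i0 : Fin c := ⟨0, hc⟩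
  have h1 : ∀ n : ℕ, 1 ≤ n →
      (OIPd.ofGradedOI (GMod.oiMod i0 (GMod.skew K) GMod.skew_compat)).pd n =
        ((if Even n then c * n - 1 else c * n : ℕ) : WithBot ℕ∞) := by
    intro n hn
    have hpos : 1 ≤ c * n := Nat.mul_pos hc hn
    split_ifs with h
    · obtain ⟨h2, h3⟩ := PD.MM_bij i0 (GMod.skew K n) hn (GMod.skew_even h)
      exact OIPd.pd_eq (by rw [Nat.sub_add_cancel hpos]; exact h2) h3
    · obtain ⟨h2, h3⟩ := PD.MM_sing i0 (GMod.skew K n) (PD.not_inj (GMod.skew_odd h))
      exact OIPd.pd_eq h2 h3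
  refine ⟨OIPd.ofGradedOI (GMod.oiMod i0 (GMod.skew K) GMod.skew_compat),
    OIPd.finGen_ofGradedOI _ (GMod.oiMod_finGen _ _ _), h1, ?_⟩
  refine OIPd.not_linear hc _ (fun n => Even n) h1 ?_ ?_
  · intro N; exact ⟨2 * N, by omega, by simp⟩
  · intro N; exact ⟨2 * N + 1, by omega, by simp⟩

end Pool.Agent.Results.MP_a29b63_ag.OINotEventuallyLinear
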